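import Pool.Agent.TH779.AG.Fin
import Pool.Agent.H378R2.Final

set_option autoImplicit false

/-!
Chains of `k` consecutive gaps between primes of a residue class, almost all of which have `1 / k` times the
record size.

Author: helper779.  It rests on helper915's library for uniform chains (`Pool.Agent.TH915.UC`) and on the
Maynard-Tao sieve inside the windows of the record sieve for large gaps (starting files, helper256, helper312,
helper362, helper378 and their teams).

What is new in the proof: close pairs of primes of the window are allowed, but they are counted with the large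
weight `κ = 2 / ε`.  Windows with more than `k + κ P` primes, `P` pairs of which are close, exist as soon as
closeness means less than `1 / (C k κ)` times the length of the window (against `1 / (C k ^ 2)` for windows
without close pairs), and such a window contains a block of `k + 1` consecutive primes with at most `2 k / κ`
short gaps.
-/

namespace Pool.Agent.Results.MP_b0c12c_nt.AlmostAllGapsOfChains

/-- There is `c > 0` such that for every `0 < ε ≤ 1`, every squarefree `q`, every `a` prime to `q`, all large `X`
and all `k ≥ 1` with `k φ(q) ≤ c log log X` there are at least `X^(7/8)` indices `n` for which the primes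
`p_n < ... < p_{n+k}` lie in `(X, 4X]`, are all `≡ a (mod q)`, and all but at most `ε k` of the `k` gaps between
them are at least `(c ε / k) log X (log₂ X)² log₄ X / (log₃ X)²`. -/
theorem result : ∃ c : ℝ, 0 < c ∧ ∀ ε : ℝ, 0 < ε → ε ≤ 1 →
    ∀ q : ℕ, Squarefree q → ∀ a : ℕ, a.Coprime q →
    ∃ X₀ : ℝ, ∀ X : ℝ, X₀ ≤ X → ∀ k : ℕ, 1 ≤ k → (k : ℝ) * q.totient ≤ c * Real.log (Real.log X) →
    X ^ (7 / 8 : ℝ) ≤ ({n : ℕ | X < Nat.nth Nat.Prime n ∧ (Nat.nth Nat.Prime (n + k) : ℝ) ≤ 4 * X ∧
      (∀ i ≤ k, Nat.nth Nat.Prime (n + i) ≡ a [MOD q]) ∧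
      (({i : ℕ | i < k ∧ (Nat.nth Nat.Prime (n + i + 1) : ℝ) - Nat.nth Nat.Prime (n + i) <
        c * ε / k * (Real.log X * (Real.log (Real.log X)) ^ 2 *
          Real.log (Real.log (Real.log (Real.log X))) /
          (Real.log (Real.log (Real.log X))) ^ 2)}.ncard : ℕ) : ℝ) ≤ ε * k}.ncard : ℝ) :=
  Pool.Agent.TH779.AG.almost_all_of Pool.Agent.H378R2.sieveAsymp_holds Pool.Agent.H378R2.bvrel_holds

end Pool.Agent.Results.MP_b0c12c_nt.AlmostAllGapsOfChains
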