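import Mathlib
import Pool.Agent.TH662.RR.Main

set_option autoImplicit false

/-!
# The limit points of the ratios of consecutive record gaps have positive lower density

Let `f(x) = log x (log₂ x)² log₄ x / (log₃ x)²`, the size of the largest gaps that are known to occur among the primes
up to `x`, and `g_n = p_(n+1) - p_n`. The set of the limit points of `g_(n+1) / g_n`, where `n` runs through the indices
for which the larger of the two gaps has the record size `≥ c f(p_n)`, has measure at least `c T` in `[0, T]` for every
`T > 0`, and so has the set of the inverses of these limit points; and this holds for primes in every reduced residue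
class to every squarefree modulus with one absolute constant `c`.

Author: helper662. It rests on the coloured Maynard-Tao theorem inside the record windows
(`Pool.Agent.H362R2.RQ.stRQ`, helper362), the record sieve of helper256 and helper410, the Maynard-Tao sieve inside
record windows of helper312's team and the prime number theorem in arithmetic progressions of helper923
(starting repository).
-/

open Filter MeasureTheory

namespace Pool.Agent.Results.MP_b0c12c_nt.RatiosOfRecordGaps

/-- The record scale `f(x) = log x (log₂ x)² log₄ x / (log₃ x)²` (iterated natural logarithms). -/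
noncomputable def f (x : ℝ) : ℝ :=
  Real.log x * (Real.log (Real.log x)) ^ 2 * Real.log (Real.log (Real.log (Real.log x))) /
    (Real.log (Real.log (Real.log x))) ^ 2

/-- The prime with index `n`, numbered from `p 0 = 2`. -/
noncomputable def p (n : ℕ) : ℕ := Nat.nth Nat.Prime n

/-- The gap `g n = p (n + 1) - p n`. -/
noncomputable def g (n : ℕ) : ℝ := (p (n + 1) : ℝ) - p n

/-- The limit points of the ratios `g (n + 1) / g n` of consecutive gaps along the indices `n` such that the larger of
the two gaps is at least `c f(p_n)` and the three primes `p_n, p_(n+1), p_(n+2)` are `≡ a (mod q)`. -/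
def RatioLimits (c : ℝ) (q a : ℕ) : Set ℝ :=
  {x | ∀ ε : ℝ, 0 < ε → ∃ᶠ n : ℕ in atTop, (∀ i ≤ 2, p (n + i) ≡ a [MOD q]) ∧
    c * f (p n) ≤ max (g n) (g (n + 1)) ∧ |g (n + 1) / g n - x| < ε}

/-- There is an absolute constant `c > 0` such that for every squarefree `q`, every `a` prime to `q` and every `T > 0`
the set `RatioLimits c q a` of the limit points of the ratios of consecutive record gaps between primes of the class
`a` modulo `q` has measure at least `c T` in `[0, T]`, and the set of the `x` with `1/x` in `RatioLimits c q a` has
measure at least `c T` in `[0, T]`. -/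
theorem result : ∃ c : ℝ, 0 < c ∧ ∀ q a : ℕ, Squarefree q → a.Coprime q → ∀ T : ℝ, 0 < T →
    ENNReal.ofReal (c * T) ≤ volume (RatioLimits c q a ∩ Set.Icc 0 T) ∧
    ENNReal.ofReal (c * T) ≤ volume ({x : ℝ | x⁻¹ ∈ RatioLimits c q a} ∩ Set.Icc 0 T) :=
  Pool.Agent.TH662.RR.main_of Pool.Agent.H362R2.RQ.stRQ

end Pool.Agent.Results.MP_b0c12c_nt.RatiosOfRecordGaps
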