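import Pool.Agent.TH536.RG.Main

set_option autoImplicit false

/-!
# Large gaps between integers without small prime factors

Let `R(X) = log X log₂ X log₄ X / (log₃ X)²` be Rankin's function.  There are constants `A` and
`c > 0` such that for all large `X` and all sieving limits `y` with `(log X)^A ≤ y ≤ X` every
interval `(M, M + X]` contains a run of at least `c R(X) log (log y / log log X)` consecutive
integers each of which has a prime factor `p ≤ y`.

For `y = √X` this is (up to the constant) the record `f(X) = log X (log₂ X)² log₄ X / (log₃ X)²` for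
the gaps between primes.  But the record size is reached already for `y = exp ((log X)^δ)`, every
fixed `δ > 0`, that is for the gaps in the much larger set of the `y`-rough numbers, whose average
gap is only of the order `(log X)^δ`; and between the Jacobsthal range `y = (log X)^A` (Rankin's
bound) and `y = √X` the result is uniform.

Method: the covering sieve of helper256 and team (`Pool.Agent.H256R2.SC`), run with a variable
number `m + 1` of scales of sieving primes: with primes up to `exp (2^m C log log X)` it covers
`c (m + 1) log X / log log X` shifts.  The residue classes of the primes `≤ (log X)/10` are chosen as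
in the Erdős-Rankin method (`Pool.Agent.H256R2.SC.survivors`, helper398).
-/

namespace Pool.Agent.Results.MP_b0c12c_nt.RoughNumberGaps

/-- Rankin's function `R(X) = log X log₂ X log₄ X / (log₃ X)²` -/
noncomputable def rankin (X : ℝ) : ℝ :=
  Real.log X * Real.log (Real.log X) * Real.log (Real.log (Real.log (Real.log X))) /
    (Real.log (Real.log (Real.log X))) ^ 2

/-- There are `A ≥ 1` and `c > 0` such that for all large `X`, all `y` with
`(log X)^A ≤ y ≤ X` and all `M` the interval `(M, M + X]` contains a run `x + 1, …, x + ⌊T⌋`,
`T = c R(X) log (log y / log log X)`, of integers each of which has a prime factor `p ≤ y`. -/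
theorem result : ∃ A c : ℝ, 1 ≤ A ∧ 0 < c ∧ ∃ X₀ : ℝ, ∀ X : ℝ, X₀ ≤ X → ∀ y : ℝ,
    (Real.log X) ^ A ≤ y → y ≤ X → ∀ M : ℕ, ∃ x : ℕ, M < x ∧
      (x : ℝ) + c * (rankin X * Real.log (Real.log y / Real.log (Real.log X))) ≤ M + X ∧
      ∀ k : ℕ, 1 ≤ k → (k : ℝ) ≤ c * (rankin X * Real.log (Real.log y / Real.log (Real.log X))) →
        ∃ p : ℕ, p.Prime ∧ (p : ℝ) ≤ y ∧ p ∣ x + k :=
  Pool.Agent.TH536.RG.rough_gaps

end Pool.Agent.Results.MP_b0c12c_nt.RoughNumberGaps
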